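import Pool.Agent.N343.TC.Stm

/-! Project TC, step NC: the explicit outer domain is not convex. -/

set_option autoImplicit false

open MeasureTheory Set Filter Topology Metric Complex
open scoped ContDiff RealInnerProductSpace ComplexConjugate

namespace Pool.Agent.N491.TC.NC

open Pool.Agent.N343.TC

/-- the rotated map, with real coefficients -/
noncomputable def psi (k : ℕ) (z : ℂ) : ℂ :=
  z - (aa k : ℂ) * z ^ (k + 1) + (bb k : ℂ) * z ^ (2 * k + 1)

noncomputable def psiR (k : ℕ) (x : ℝ) : ℝ :=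
  x - aa k * x ^ (k + 1) + bb k * x ^ (2 * k + 1)

noncomputable def XX (k : ℕ) (t : ℝ) : ℝ :=
  Real.cos t - aa k * Real.cos ((k + 1) * t) + bb k * Real.cos ((2 * k + 1) * t)

noncomputable def e0 (k : ℕ) : ℂ := exp (((Real.pi / k : ℝ) : ℂ) * I)

theorem e0_norm (k : ℕ) : ‖e0 k‖ = 1 := by
  unfold e0; exact Complex.norm_exp_ofReal_mul_I _

theorem e0_pow (k : ℕ) (hk : 6 ≤ k) : e0 k ^ k = -1 := by
  unfold e0
  rw [← Complex.exp_nat_mul]
  have hk0 : (k : ℂ) ≠ 0 := by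
    have : (k : ℕ) ≠ 0 := by omega
    exact_mod_cast this
  rw [show (k : ℂ) * (((Real.pi / k : ℝ) : ℂ) * I) = (Real.pi : ℂ) * I by
    push_cast; field_simp]
  exact Complex.exp_pi_mul_I

theorem mk_e0 (k : ℕ) (hk : 6 ≤ k) (z : ℂ) : mk 1 k (AA k) (e0 k * z) = e0 k * psi k z := by
  unfold N343.TC.mk AA psi
  rw [mul_pow, e0_pow k hk]
  push_cast
  ring

theorem psi_conj (k : ℕ) (z : ℂ) : psi k (conj z) = conj (psi k z) := by
  unfold psi
  simp only [map_add, map_sub, map_mul, map_pow, Complex.conj_ofReal]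

theorem psi_real (k : ℕ) (x : ℝ) : psi k (x : ℂ) = (psiR k x : ℂ) := by
  unfold psi psiR
  push_cast
  ring

theorem psi_exp (k : ℕ) (t : ℝ) :
    psi k (exp ((t : ℂ) * I)) + psi k (exp (-((t : ℂ) * I))) = 2 * (XX k t : ℂ) := by
  unfold psi XX
  simp only [← Complex.exp_nat_mul]
  push_cast
  rw [Complex.cos, Complex.cos, Complex.cos]
  have e1 : ((k : ℂ) + 1) * ((t : ℂ) * I) = ((k : ℂ) + 1) * (t : ℂ) * I := by ring
  have e2 : ((k : ℂ) + 1) * (-((t : ℂ) * I)) = -(((k : ℂ) + 1) * (t : ℂ)) * I := by ring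
  have e3 : (2 * (k : ℂ) + 1) * ((t : ℂ) * I) = (2 * (k : ℂ) + 1) * (t : ℂ) * I := by ring
  have e4 : (2 * (k : ℂ) + 1) * (-((t : ℂ) * I)) = -((2 * (k : ℂ) + 1) * (t : ℂ)) * I := by ring
  rw [e1, e2, e3, e4, show -((t : ℂ) * I) = -(t : ℂ) * I by ring]
  ring

theorem consts (k : ℕ) (hk : 6 ≤ k) : 0 < aa k ∧ 0 < bb k ∧ aa k * (k + 1) = 3 / (2 * k) ∧
    bb k * (2 * k + 1) = 9 / (16 * k ^ 2) := by
  have hk0 : (0 : ℝ) < k := by
    have : 0 < k := by omega
    exact_mod_cast this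
  unfold aa bb cc
  refine ⟨by positivity, by positivity, ?_, ?_⟩
  · field_simp
    ring
  · field_simp
    ring

theorem psiR_le (k : ℕ) (hk : 6 ≤ k) (x : ℝ) (h1 : -1 ≤ x) (h2 : x ≤ 1) :
    psiR k x ≤ 1 - aa k + bb k := by
  obtain ⟨ha, hb, hak, -⟩ := consts k hk
  have hk6 : (6 : ℝ) ≤ k := by exact_mod_cast hk
  have hB := one_add_mul_le_pow (show (-2 : ℝ) ≤ x - 1 by linarith) (k + 1)
  rw [show (1 : ℝ) + (x - 1) = x by ring] at hB
  push_cast at hB
  have hP : x ^ (2 * k + 1) ≤ 1 := by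
    have : |x ^ (2 * k + 1)| ≤ 1 := by
      rw [abs_pow]
      exact pow_le_one₀ (abs_nonneg _) (abs_le.2 ⟨h1, h2⟩)
    exact (abs_le.1 this).2
  unfold psiR
  have h3 : aa k * (1 - x ^ (k + 1)) ≤ aa k * ((k + 1) * (1 - x)) := by
    apply mul_le_mul_of_nonneg_left _ ha.le
    linarith
  have h4 : bb k * x ^ (2 * k + 1) ≤ bb k * 1 := mul_le_mul_of_nonneg_left hP hb.le
  have h5 : aa k * ((k + 1) * (1 - x)) = 3 / (2 * k) * (1 - x) := by
    rw [← hak]; ring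
  have h6 : 3 / (2 * (k : ℝ)) ≤ 1 := by
    rw [div_le_one (by linarith)]
    linarith
  have h7 : 3 / (2 * (k : ℝ)) * (1 - x) ≤ 1 * (1 - x) :=
    mul_le_mul_of_nonneg_right h6 (by linarith)
  nlinarith

theorem XX_gt (k : ℕ) (hk : 6 ≤ k) : 1 - aa k + bb k < XX k (1 / ((k : ℝ) + 1)) := by
  obtain ⟨ha, hb, hak, hbk⟩ := consts k hk
  have hk6 : (6 : ℝ) ≤ k := by exact_mod_cast hk
  have hk0 : (0 : ℝ) < k := by linarith
  set t : ℝ := 1 / ((k : ℝ) + 1) with ht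
  have htk : ((k : ℝ) + 1) * t = 1 := by rw [ht]; field_simp
  have ht0 : 0 < t := by rw [ht]; positivity
  have h1 : 1 - t ^ 2 / 2 ≤ Real.cos t := Real.one_sub_sq_div_two_le_cos
  have h2 : Real.cos (((k : ℝ) + 1) * t) ≤ 1 - 1 / 2 + 5 / 96 := by
    rw [htk]
    have := Real.cos_bound (x := 1) (by norm_num)
    have := (abs_le.1 this).2
    norm_num at this ⊢
    linarith
  have h3 : 1 - ((2 * k + 1) * t) ^ 2 / 2 ≤ Real.cos ((2 * k + 1) * t) :=
    Real.one_sub_sq_div_two_le_cos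
  unfold XX
  have h4 : aa k * Real.cos (((k : ℝ) + 1) * t) ≤ aa k * (1 - 1 / 2 + 5 / 96) :=
    mul_le_mul_of_nonneg_left h2 ha.le
  have h5 : bb k * (1 - ((2 * k + 1) * t) ^ 2 / 2) ≤ bb k * Real.cos ((2 * k + 1) * t) :=
    mul_le_mul_of_nonneg_left h3 hb.le
  have ha' : aa k = 3 / (2 * k) * t := by
    rw [← hak, ht]; field_simp
  have h6 : bb k * ((2 * k + 1) * t) ^ 2 = 9 / (16 * k ^ 2) * (2 * k + 1) * t ^ 2 := by
    rw [← hbk]; ring
  have key : t ^ 2 / 2 + 9 / (16 * k ^ 2) * (2 * k + 1) * t ^ 2 / 2 <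
      3 / (2 * k) * t * (1 / 2 - 5 / 96) := by
    have e1 : 3 / (2 * (k : ℝ)) * t * (1 / 2 - 5 / 96) =
        t ^ 2 * (3 / (2 * (k : ℝ)) * (k + 1) * (43 / 96)) := by
      rw [ht]; field_simp; ring
    have e2 : t ^ 2 / 2 + 9 / (16 * (k : ℝ) ^ 2) * (2 * k + 1) * t ^ 2 / 2 =
        t ^ 2 * (1 / 2 + 9 / (16 * (k : ℝ) ^ 2) * (2 * k + 1) / 2) := by ring
    rw [e1, e2]
    apply mul_lt_mul_of_pos_left _ (by positivity)
    rw [← sub_pos]
    have e3 : 3 / (2 * (k : ℝ)) * (k + 1) * (43 / 96) -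
        (1 / 2 + 9 / (16 * (k : ℝ) ^ 2) * (2 * k + 1) / 2) =
        (11 / 64 * k ^ 2 + 7 / 64 * k - 9 / 32) / k ^ 2 := by
      field_simp
      ring
    rw [e3]
    apply div_pos _ (by positivity)
    nlinarith
  nlinarith

theorem main : S_NC := by
  intro k hk hC hconv
  obtain ⟨hr, -, hinj, -⟩ := hC
  have hcont : Continuous (mk 1 k (AA k)) := by
    unfold N343.TC.mk AA
    fun_prop
  have hcl : closure (mk 1 k (AA k) '' ball 0 1) ⊆ mk 1 k (AA k) '' closedBall 0 1 :=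
    closure_minimal (image_mono ball_subset_closedBall)
      ((isCompact_closedBall (0 : ℂ) 1).image hcont).isClosed
  have hmem : ∀ w : ℂ, ‖w‖ = 1 → mk 1 k (AA k) w ∈ closure (mk 1 k (AA k) '' ball 0 1) := by
    intro w hw
    apply image_closure_subset_closure_image hcont
    apply mem_image_of_mem
    rw [closure_ball (0 : ℂ) one_ne_zero]
    simp [hw]
  set t : ℝ := 1 / ((k : ℝ) + 1) with ht
  have hw1 : ‖e0 k * exp ((t : ℂ) * I)‖ = 1 := by
    rw [norm_mul, e0_norm, Complex.norm_exp_ofReal_mul_I, one_mul]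
  have hw2 : ‖e0 k * exp (-((t : ℂ) * I))‖ = 1 := by
    rw [norm_mul, e0_norm, show -((t : ℂ) * I) = ((-t : ℝ) : ℂ) * I by push_cast; ring,
      Complex.norm_exp_ofReal_mul_I, one_mul]
  have hmid := hconv.closure (hmem _ hw1) (hmem _ hw2) (show (0 : ℝ) ≤ 1 / 2 by norm_num)
    (show (0 : ℝ) ≤ 1 / 2 by norm_num) (by norm_num)
  obtain ⟨w, hw, hwe⟩ := hcl hmid
  have hval : (1 / 2 : ℝ) • mk 1 k (AA k) (e0 k * exp ((t : ℂ) * I)) +
      (1 / 2 : ℝ) • mk 1 k (AA k) (e0 k * exp (-((t : ℂ) * I))) = e0 k * (XX k t : ℂ) := by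
    rw [mk_e0 k hk, mk_e0 k hk, ← smul_add, ← mul_add, psi_exp]
    rw [Complex.real_smul]
    push_cast
    ring
  rw [hval] at hwe
  have he0 : e0 k ≠ 0 := by
    intro h
    have := e0_norm k
    rw [h] at this
    simp at this
  set z : ℂ := (e0 k)⁻¹ * w with hz
  have hwz : w = e0 k * z := by rw [hz]; field_simp
  have hzn : ‖z‖ ≤ 1 := by
    rw [hz, norm_mul, norm_inv, e0_norm]
    simpa using hw
  rw [hwz, mk_e0 k hk] at hwe
  have hpz : psi k z = (XX k t : ℂ) := mul_left_cancel₀ he0 hwe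
  have hpz' : psi k (conj z) = psi k z := by
    rw [psi_conj, hpz, Complex.conj_ofReal]
  have hzz : conj z = z := by
    have h1 : e0 k * conj z = e0 k * z := by
      apply hinj
      · rw [mem_ball_zero_iff, norm_mul, e0_norm, one_mul, Complex.norm_conj]
        linarith
      · rw [mem_ball_zero_iff, norm_mul, e0_norm, one_mul]
        linarith
      · rw [mk_e0 k hk, mk_e0 k hk, hpz']
    exact mul_left_cancel₀ he0 h1
  obtain ⟨x, hx⟩ := Complex.conj_eq_iff_real.1 hzz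
  rw [hx, psi_real] at hpz
  have hpx : psiR k x = XX k t := by exact_mod_cast hpz
  have hxn : |x| ≤ 1 := by
    rw [hx, Complex.norm_real] at hzn
    exact hzn
  have := psiR_le k hk x (abs_le.1 hxn).1 (abs_le.1 hxn).2
  have h2 := XX_gt k hk
  rw [← ht] at h2
  linarith

end Pool.Agent.N491.TC.NC
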