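import Pool.Agent.N343.TC.Stm

/-! Project TC, step OUT: the overdetermined conditions for the explicit outer potential. -/

set_option autoImplicit false

open MeasureTheory Set Filter Topology Metric Complex
open scoped ContDiff RealInnerProductSpace ComplexConjugate

namespace Pool.Agent.N491.TC.OUT

open Pool.Agent.N343.TC

theorem cc_pos (k : ℕ) (hk : 6 ≤ k) : 0 < cc k ∧ cc k < 1 := by
  have hk6 : (6 : ℝ) ≤ k := by exact_mod_cast hk
  unfold cc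
  refine ⟨by positivity, ?_⟩
  rw [div_lt_one (by linarith)]
  linarith

theorem aa_eq (k : ℕ) : aa k * (k + 1) = 2 * cc k := by
  unfold aa
  have : (0 : ℝ) < (k : ℝ) + 1 := by positivity
  field_simp

theorem bb_eq (k : ℕ) : bb k * (2 * k + 1) = cc k ^ 2 := by
  unfold bb
  have : (0 : ℝ) < 2 * (k : ℝ) + 1 := by positivity
  field_simp

theorem qq_eq (k : ℕ) :
    qq k * (1 + (cc k) ^ 2) = (1 + 2 * aa k * cc k + bb k * (cc k) ^ 2) / 2 := by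
  unfold qq
  have : (0 : ℝ) < 1 + (cc k) ^ 2 := by positivity
  field_simp

/-- the derivative of the outer map -/
theorem hasDeriv_mk (k : ℕ) (z : ℂ) :
    HasDerivAt (N343.TC.mk 1 k (AA k)) ((1 + (cc k : ℂ) * z ^ k) ^ 2) z := by
  have ha : (aa k : ℂ) * ((k : ℂ) + 1) = 2 * (cc k : ℂ) := by exact_mod_cast aa_eq k
  have hb : (bb k : ℂ) * (2 * (k : ℂ) + 1) = (cc k : ℂ) ^ 2 := by exact_mod_cast bb_eq k
  have hf : N343.TC.mk 1 k (AA k) =
      fun z => z + (aa k : ℂ) * z ^ (k + 1) + (bb k : ℂ) * z ^ (2 * k + 1) := by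
    funext z
    unfold N343.TC.mk AA
    push_cast
    ring
  rw [hf]
  have h1 := ((hasDerivAt_id z).add ((hasDerivAt_pow (k + 1) z).const_mul (aa k : ℂ))).add
    ((hasDerivAt_pow (2 * k + 1) z).const_mul (bb k : ℂ))
  refine h1.congr_deriv ?_
  simp only [Nat.add_sub_cancel]
  push_cast
  have e1 : (1 : ℂ) + (aa k : ℂ) * (((k : ℂ) + 1) * z ^ k) +
      (bb k : ℂ) * ((2 * (k : ℂ) + 1) * z ^ (2 * k)) =
      1 + ((aa k : ℂ) * ((k : ℂ) + 1)) * z ^ k + ((bb k : ℂ) * (2 * (k : ℂ) + 1)) * z ^ (2 * k) := by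
    ring
  rw [e1, ha, hb, pow_mul', ]
  ring

/-- the derivative of the potential, times `z`, as a function of `t = z ^ k` -/
noncomputable def dP (k : ℕ) (t : ℂ) : ℂ :=
  ((cc k : ℂ) ^ 2 / 2) * t ^ 2
    + ((cc k : ℂ) + (aa k : ℂ) * (cc k : ℂ) ^ 2 / 2 - (qq k : ℂ) * (cc k : ℂ)) * t
    + ((aa k : ℂ) / 2 + (bb k : ℂ) * (cc k : ℂ) - (qq k : ℂ) * (cc k : ℂ)) * t⁻¹
    + ((bb k : ℂ) / 2) * (t⁻¹) ^ 2

theorem hasDeriv_PP (k : ℕ) (hk : 6 ≤ k) (z : ℂ) (hz : z ≠ 0) :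
    HasDerivAt (PP k) (dP k (z ^ k) / z) z := by
  have hk0 : (k : ℂ) ≠ 0 := by
    have : k ≠ 0 := by omega
    exact_mod_cast this
  have hzk : z ^ k ≠ 0 := pow_ne_zero _ hz
  have hT : HasDerivAt (fun z : ℂ => z ^ k) ((k : ℂ) * z ^ (k - 1)) z := hasDerivAt_pow k z
  have hS := hT.fun_inv hzk
  have h1 := ((((((hT.fun_pow 2).const_mul ((((cc k) ^ 2 / 4 : ℝ) : ℂ)))).fun_add
    (hT.const_mul (((cc k + aa k * (cc k) ^ 2 / 2 - qq k * cc k : ℝ) : ℂ)))).fun_sub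
    (hS.const_mul (((aa k / 2 + bb k * cc k - qq k * cc k : ℝ) : ℂ)))).fun_sub
    ((hS.fun_pow 2).const_mul (((bb k / 4 : ℝ) : ℂ)))).const_mul (1 / (k : ℂ))
  have h2 := h1.add_const (c1 k : ℂ)
  have h3 : HasDerivAt (PP k) _ z := h2
  refine h3.congr_deriv ?_
  have hzk1 : z ^ (k - 1) = z ^ k / z := by
    rw [eq_div_iff hz, ← pow_succ]
    congr 1
    omega
  unfold dP
  rw [hzk1]
  set t : ℂ := z ^ k with ht
  push_cast
  field_simp
  ring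

/-- the algebraic identity between Laurent polynomials -/
theorem laurent (k : ℕ) (t : ℂ) (ht : t ≠ 0) :
    (1 / 2) * (1 + (aa k : ℂ) * t⁻¹ + (bb k : ℂ) * (t⁻¹) ^ 2) * (1 + (cc k : ℂ) * t) ^ 2
      - (qq k : ℂ) * ((1 + (cc k : ℂ) * t) * (1 + (cc k : ℂ) * t⁻¹)) = dP k t := by
  have hq : (qq k : ℂ) * (1 + (cc k : ℂ) ^ 2) =
      (1 + 2 * (aa k : ℂ) * (cc k : ℂ) + (bb k : ℂ) * (cc k : ℂ) ^ 2) / 2 := by
    exact_mod_cast qq_eq k
  unfold dP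
  have htt : t * t⁻¹ = 1 := mul_inv_cancel₀ ht
  generalize t⁻¹ = s at *
  linear_combination (-1 : ℂ) * hq + ((aa k : ℂ) * (cc k : ℂ) + (aa k : ℂ) * (cc k : ℂ) ^ 2 * t / 2
    + (bb k : ℂ) * (cc k : ℂ) * s + (bb k : ℂ) * (cc k : ℂ) ^ 2 * (t * s + 1) / 2
    - (qq k : ℂ) * (cc k : ℂ) ^ 2) * htt

theorem conj_eq_inv (z : ℂ) (hz : ‖z‖ = 1) : conj z = z⁻¹ := by
  rw [Complex.inv_def, Complex.normSq_eq_norm_sq, hz]
  simp

theorem alg (z A u v q : ℂ) (hz : z ≠ 0) (hu : u ≠ 0) (hv : v ≠ 0) :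
    (1 / 2 * A * u ^ 2 - q * (u * v)) / z =
      u ^ 2 * (z⁻¹ * A / 2 - q * (z⁻¹ * v ^ 2 / (u * v))) := by
  field_simp

theorem PiT_sum (k : ℕ) (hk : 6 ≤ k) (t : ℂ) :
    PiT k t + PiT k t⁻¹ = (bb k : ℂ) / 2 * (t ^ 2 + (t⁻¹) ^ 2)
      + ((aa k : ℂ) + (aa k : ℂ) * (bb k : ℂ)) / 2 * (t + t⁻¹) := by
  have hk0 : (k : ℂ) ≠ 0 := by
    have : k ≠ 0 := by omega
    exact_mod_cast this
  have ha : (aa k : ℂ) * ((k : ℂ) + 1) = 2 * (cc k : ℂ) := by exact_mod_cast aa_eq k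
  have hb : (bb k : ℂ) * (2 * (k : ℂ) + 1) = (cc k : ℂ) ^ 2 := by exact_mod_cast bb_eq k
  unfold PiT
  rw [inv_inv]
  generalize t⁻¹ = s
  push_cast
  rw [← mul_add, div_mul_eq_mul_div, one_mul, div_eq_iff hk0]
  linear_combination (-(t ^ 2 + s ^ 2) / 4 - (aa k : ℂ) / 2 * (t + s)) * hb +
    (-(t + s) / 2 + (bb k : ℂ) / 2 * (t + s)) * ha

theorem PiT_one (k : ℕ) (hk : 6 ≤ k) :
    (PiT k 1).re = bb k / 2 + (aa k + aa k * bb k) / 2 := by
  have h := PiT_sum k hk 1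
  rw [inv_one] at h
  have h2 : PiT k 1 = ((bb k / 2 + (aa k + aa k * bb k) / 2 : ℝ) : ℂ) := by
    push_cast
    linear_combination h / 2
  rw [h2, Complex.ofReal_re]

theorem PiT_conj (k : ℕ) (t : ℂ) : conj (PiT k t) = PiT k (conj t) := by
  unfold PiT
  simp only [map_add, map_sub, map_mul, map_pow, map_inv₀, map_div₀, map_one, Complex.conj_ofReal,
    Complex.conj_natCast]

theorem main : S_OUT := by
  intro k hk
  refine ⟨fun ζ hζ => (hasDeriv_PP k hk ζ hζ).differentiableAt, ?_⟩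
  intro ζ hζ
  have hz0 : ζ ≠ 0 := by
    intro h
    rw [h] at hζ
    simp at hζ
  have hcz : conj ζ = ζ⁻¹ := conj_eq_inv ζ hζ
  obtain ⟨hc0, hc1⟩ := cc_pos k hk
  have ht1 : ‖ζ ^ k‖ = 1 := by rw [norm_pow, hζ, one_pow]
  have ht0 : ζ ^ k ≠ 0 := pow_ne_zero _ hz0
  have hct : conj (ζ ^ k) = (ζ ^ k)⁻¹ := conj_eq_inv _ ht1
  have hphi : conj (N343.TC.mk 1 k (AA k) ζ) =
      ζ⁻¹ * (1 + (aa k : ℂ) * (ζ ^ k)⁻¹ + (bb k : ℂ) * ((ζ ^ k)⁻¹) ^ 2) := by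
    unfold N343.TC.mk AA
    simp only [map_add, map_mul, map_pow, map_one, Complex.conj_ofReal]
    rw [← map_pow, hct, hcz]
    push_cast
    ring
  constructor
  · -- the Dirichlet condition
    have e1 : ((‖N343.TC.mk 1 k (AA k) ζ‖ ^ 2 : ℝ) : ℂ) =
        (1 + (aa k : ℂ) * ζ ^ k + (bb k : ℂ) * (ζ ^ k) ^ 2) *
        (1 + (aa k : ℂ) * (ζ ^ k)⁻¹ + (bb k : ℂ) * ((ζ ^ k)⁻¹) ^ 2) := by
      rw [Complex.ofReal_pow, ← Complex.mul_conj', hphi]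
      unfold N343.TC.mk AA
      push_cast
      field_simp
    have e2 : ((PP k ζ).re : ℂ) = (PiT k (ζ ^ k) + PiT k (ζ ^ k)⁻¹) / 2 + (c1 k : ℂ) := by
      unfold PP
      rw [Complex.add_re, Complex.ofReal_re, Complex.ofReal_add, Complex.re_eq_add_conj,
        PiT_conj, hct]
    have e3 : (c1 k : ℂ) = (1 + (aa k : ℂ) + (bb k : ℂ)) ^ 2 / 4 -
        ((bb k : ℂ) / 2 + ((aa k : ℂ) + (aa k : ℂ) * (bb k : ℂ)) / 2) := by
      unfold c1
      rw [PiT_one k hk]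
      push_cast
      ring
    have e4 : ((-‖N343.TC.mk 1 k (AA k) ζ‖ ^ 2 / 4 + (PP k ζ).re : ℝ) : ℂ) = 0 := by
      rw [Complex.ofReal_add, e2, PiT_sum k hk, e3, neg_div, Complex.ofReal_neg,
        Complex.ofReal_div, e1]
      have htt : ζ ^ k * (ζ ^ k)⁻¹ = 1 := mul_inv_cancel₀ ht0
      generalize (ζ ^ k)⁻¹ = s at *
      generalize ζ ^ k = t at *
      push_cast
      linear_combination (-((aa k : ℂ) ^ 2 + (aa k : ℂ) * (bb k : ℂ) * (t + s) +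
        (bb k : ℂ) ^ 2 * (t * s + 1)) / 4) * htt
    exact_mod_cast e4
  · -- the gradient
    rw [(hasDeriv_mk k ζ).deriv, (hasDeriv_PP k hk ζ hz0).deriv, hphi]
    set t : ℂ := ζ ^ k with ht
    have h1 : (1 : ℂ) + (cc k : ℂ) * t ≠ 0 := by
      intro h
      have h2 : ‖(cc k : ℂ) * t‖ = 1 := by
        rw [show (cc k : ℂ) * t = -1 by linear_combination h]
        simp
      rw [norm_mul, ht1, Complex.norm_real, Real.norm_eq_abs, abs_of_pos hc0] at h2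
      linarith
    have hN : (‖(1 + (cc k : ℂ) * t) ^ 2‖ : ℂ) =
        (1 + (cc k : ℂ) * t) * (1 + (cc k : ℂ) * t⁻¹) := by
      rw [norm_pow]
      push_cast
      rw [← Complex.mul_conj']
      simp only [map_add, map_mul, map_one, Complex.conj_ofReal]
      rw [hct]
    have h1' : (1 : ℂ) + (cc k : ℂ) * t⁻¹ ≠ 0 := by
      rw [← hct]
      intro h
      apply h1
      have := congrArg conj h
      simpa using this
    rw [map_div₀, Complex.conj_ofReal, hN]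
    simp only [map_add, map_mul, map_one, map_pow, Complex.conj_ofReal]
    rw [hct, hcz, ← laurent k t ht0]
    exact alg ζ _ _ _ _ hz0 h1 h1'

end Pool.Agent.N491.TC.OUT
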